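import Mathlib
import Pool.Agent.H92.RRseries

set_option autoImplicit false

open PowerSeries
open scoped PowerSeries.WithPiTopology

namespace Pool.Agent.Results.MP_c002f6_nt.Nonnegativity

/-- `T_{k,S}(q) = ∑_{j ≥ k} (-1)^j q^(7j(j+1)/2 - jS) (1 - q^((2j+1)S))`, written with `j = k + i`,
as a formal power series (the sum is the limit of its partial sums, coefficient by coefficient). -/
noncomputable def T (k S : ℕ) : ℚ⟦X⟧ :=
  ∑' i : ℕ, (-1) ^ (k + i) * X ^ (7 * (k + i) * (k + i + 1) / 2 - (k + i) * S) *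
    (1 - X ^ ((2 * (k + i) + 1) * S))

/-- `F_{k,S}(q) = (-1)^k T_{k,S}(q) / (q, q^4; q^5)_∞`. -/
noncomputable def F (k S : ℕ) : ℚ⟦X⟧ :=
  (-1) ^ k * T k S * (∏' i : ℕ, (1 - X ^ (5 * i + 1)) * (1 - X ^ (5 * i + 4)))⁻¹

/-- `G_{k,S}(q) = (-1)^k T_{k,S}(q) / (q^2, q^3; q^5)_∞`. -/
noncomputable def G (k S : ℕ) : ℚ⟦X⟧ :=
  (-1) ^ k * T k S * (∏' i : ℕ, (1 - X ^ (5 * i + 2)) * (1 - X ^ (5 * i + 3)))⁻¹

/-- For every `k ≥ 1` and `S ∈ {1, …, 6}` all coefficients of `F_{k,S}` and of `G_{k,S}` are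
non-negative. -/
theorem result (k S : ℕ) (hk : 1 ≤ k) (hS : 1 ≤ S) (hS' : S ≤ 6) (n : ℕ) :
    0 ≤ coeff n (F k S) ∧ 0 ≤ coeff n (G k S) :=
  ⟨Pool.Agent.H92.RR.F_nonneg S k n hS hS' hk, Pool.Agent.H92.RR.G_nonneg S k n hS hS' hk⟩

end Pool.Agent.Results.MP_c002f6_nt.Nonnegativity
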